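import Mathlib

set_option autoImplicit false

/-!
# Plateaus of the optimal separation on the sphere are short

`d(n)` is the largest minimum distance of `n` points of the unit sphere. If `d(n) = d(m)` with
`2 ≤ n ≤ m` then `m - n ≤ 5 √m`.

Proof: take an optimal configuration of `m` points and a great circle such that the closed band of
half width `d(m) / 2` around it contains few points. Remove them and move the two hemispheres
towards the great circle by hyperbolic boosts (Moebius transformations of the sphere), which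
expand all distances in their hemisphere.
-/

namespace Pool.Agent.Lib.MP_8bd676_co.ShortPlateaus

open MeasureTheory Metric Set

/-- Euclidean space. -/
abbrev E3 : Type := EuclideanSpace ℝ (Fin 3)

/-- The largest minimum distance of `n` points of the unit sphere. -/
noncomputable def d (n : ℕ) : ℝ :=
  sSup {δ : ℝ | ∃ p : Fin n → E3, (∀ i, ‖p i‖ = 1) ∧ ∀ i j, i ≠ j → δ ≤ dist (p i) (p j)}

/-! ### The boost -/

/-- The boost in the direction `u` with the parameter `s`. -/
noncomputable def boost (u : E3) (s : ℝ) (x : E3) : E3 :=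
  (√(1 + s ^ 2) + s * inner ℝ u x)⁻¹ •
    (x + ((√(1 + s ^ 2) - 1) * inner ℝ u x + s) • u)

theorem boost_den_pos {s z : ℝ} (hz : |z| ≤ 1) : 0 < √(1 + s ^ 2) + s * z := by
  have h1 : |s| < √(1 + s ^ 2) := by
    rw [Real.lt_sqrt (abs_nonneg _), sq_abs]
    linarith
  have h2 : |s * z| ≤ |s| := by
    rw [abs_mul]
    exact mul_le_of_le_one_right (abs_nonneg _) hz
  have h3 := neg_abs_le (s * z)
  linarith

theorem inner_boost {u x y : E3} (hu : ‖u‖ = 1) (hx : ‖x‖ = 1) (hy : ‖y‖ = 1) (s : ℝ) :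
    (√(1 + s ^ 2) + s * inner ℝ u x) * (√(1 + s ^ 2) + s * inner ℝ u y) *
      (1 - inner ℝ (boost u s x) (boost u s y)) = 1 - inner ℝ x y := by
  have hzx : |inner ℝ u x| ≤ 1 := by
    have := abs_real_inner_le_norm u x
    rwa [hu, hx, one_mul] at this
  have hzy : |inner ℝ u y| ≤ 1 := by
    have := abs_real_inner_le_norm u y
    rwa [hu, hy, one_mul] at this
  have hcx := (boost_den_pos (s := s) hzx).ne'
  have hcy := (boost_den_pos (s := s) hzy).ne'
  have hc : √(1 + s ^ 2) ^ 2 = 1 + s ^ 2 := Real.sq_sqrt (by positivity)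
  have huu : inner ℝ u u = (1 : ℝ) := by rw [real_inner_self_eq_norm_sq, hu]; norm_num
  have hxu : inner ℝ x u = inner ℝ u x := real_inner_comm _ _
  unfold boost
  simp only [inner_smul_left, inner_smul_right, inner_add_left, inner_add_right, huu, hxu]
  generalize √(1 + s ^ 2) = c at *
  generalize inner ℝ u x = a at *
  generalize inner ℝ u y = b at *
  generalize inner ℝ x y = t at *
  simp only [conj_trivial]
  field_simp
  linear_combination (1 - a * b) * hc

theorem norm_boost {u x : E3} (hu : ‖u‖ = 1) (hx : ‖x‖ = 1) (s : ℝ) : ‖boost u s x‖ = 1 := by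
  have h1 := inner_boost hu hx hx s
  have hzx : |inner ℝ u x| ≤ 1 := by
    have := abs_real_inner_le_norm u x
    rwa [hu, hx, one_mul] at this
  have hcx := (boost_den_pos (s := s) hzx).ne'
  have hxx : inner ℝ x x = (1 : ℝ) := by rw [real_inner_self_eq_norm_sq, hx]; norm_num
  rw [hxx, sub_self, mul_eq_zero, mul_eq_zero] at h1
  have h2 : inner ℝ (boost u s x) (boost u s x) = (1 : ℝ) := by
    rcases h1 with (h | h) | h
    · exact absurd h hcx
    · exact absurd h hcx
    · linarith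
  rw [real_inner_self_eq_norm_sq] at h2
  nlinarith [norm_nonneg (boost u s x)]

theorem boost_zero (u x : E3) : boost u 0 x = x := by
  unfold boost
  simp

theorem dist_boost {u x y : E3} (hu : ‖u‖ = 1) (hx : ‖x‖ = 1) (hy : ‖y‖ = 1) (s : ℝ) :
    (√(1 + s ^ 2) + s * inner ℝ u x) * (√(1 + s ^ 2) + s * inner ℝ u y) *
      dist (boost u s x) (boost u s y) ^ 2 = dist x y ^ 2 := by
  have h := inner_boost hu hx hy s
  rw [dist_eq_norm, dist_eq_norm, norm_sub_sq_real, norm_sub_sq_real, norm_boost hu hx,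
    norm_boost hu hy, hx, hy]
  linear_combination 2 * h

/-- The boost expands the distances of the points on the far side. -/
theorem lt_dist_boost {u x y : E3} (hu : ‖u‖ = 1) (hx : ‖x‖ = 1) (hy : ‖y‖ = 1) {s : ℝ}
    (hsx : √(1 + s ^ 2) + s * inner ℝ u x < 1) (hsy : √(1 + s ^ 2) + s * inner ℝ u y < 1)
    (hxy : x ≠ y) : dist x y < dist (boost u s x) (boost u s y) := by
  have hzx : |inner ℝ u x| ≤ 1 := by
    have := abs_real_inner_le_norm u x
    rwa [hu, hx, one_mul] at this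
  have hzy : |inner ℝ u y| ≤ 1 := by
    have := abs_real_inner_le_norm u y
    rwa [hu, hy, one_mul] at this
  have hcx := boost_den_pos (s := s) hzx
  have hcy := boost_den_pos (s := s) hzy
  have h := dist_boost hu hx hy s
  have h0 : 0 < dist x y := dist_pos.mpr hxy
  have h1 : (√(1 + s ^ 2) + s * inner ℝ u x) * (√(1 + s ^ 2) + s * inner ℝ u y) < 1 := by
    calc _ < 1 * 1 := mul_lt_mul'' hsx hsy hcx.le hcy.le
      _ = 1 := one_mul 1
  have hb : 0 < dist (boost u s x) (boost u s y) ^ 2 := by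
    by_contra hcon
    have h2 : dist (boost u s x) (boost u s y) ^ 2 = 0 :=
      le_antisymm (not_lt.mp hcon) (sq_nonneg _)
    rw [h2, mul_zero] at h
    nlinarith
  refine lt_of_pow_lt_pow_left₀ 2 dist_nonneg ?_
  rw [← h]
  calc _ < 1 * dist (boost u s x) (boost u s y) ^ 2 := mul_lt_mul_of_pos_right h1 hb
    _ = _ := one_mul _

theorem den_lt_one {s z : ℝ} (hs : 0 < s) (hz : 2 * z < -s) : √(1 + s ^ 2) + s * z < 1 := by
  have h1 : √(1 + s ^ 2) ≤ 1 + s ^ 2 / 2 := by
    rw [Real.sqrt_le_left (by positivity)]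
    nlinarith [sq_nonneg (s ^ 2)]
  nlinarith

theorem continuousAt_boost (u x : E3) : ContinuousAt (fun s : ℝ => boost u s x) 0 := by
  unfold boost
  have h1 : ContinuousAt (fun s : ℝ => √(1 + s ^ 2) + s * inner ℝ u x) 0 := by fun_prop
  have h2 : ContinuousAt (fun s : ℝ => x + ((√(1 + s ^ 2) - 1) * inner ℝ u x + s) • u) 0 := by
    fun_prop
  exact (h1.inv₀ (by simp)).smul h2

/-- The motion. -/
noncomputable def mv (u : E3) (s : ℝ) (x : E3) : E3 :=
  if 0 < (inner ℝ u x : ℝ) then boost u (-s) x else boost u s x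

theorem norm_mv {u x : E3} (hu : ‖u‖ = 1) (hx : ‖x‖ = 1) (s : ℝ) : ‖mv u s x‖ = 1 := by
  unfold mv
  split_ifs
  · exact norm_boost hu hx _
  · exact norm_boost hu hx _

theorem mv_zero (u x : E3) : mv u 0 x = x := by
  unfold mv
  rw [neg_zero, boost_zero, ite_self]

theorem continuousAt_mv (u x : E3) : ContinuousAt (fun s : ℝ => mv u s x) 0 := by
  unfold mv
  split_ifs with h
  · have h1 : ContinuousAt (fun s : ℝ => boost u s x) (-0) := by
      rw [neg_zero]
      exact continuousAt_boost u x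
    exact h1.comp (f := fun s : ℝ => -s) (continuous_neg.continuousAt)
  · exact continuousAt_boost u x

open Filter Topology in
theorem mv_pair {u x y : E3} (hu : ‖u‖ = 1) (hx : ‖x‖ = 1) (hy : ‖y‖ = 1) {δ : ℝ} (hδ : 0 < δ)
    (hxy : δ ≤ dist x y) (hzx : δ < 2 * |inner ℝ u x|) (hzy : δ < 2 * |inner ℝ u y|) :
    ∀ᶠ s : ℝ in 𝓝[>] 0, δ < dist (mv u s x) (mv u s y) := by
  have hne : x ≠ y := by
    intro h
    rw [h, dist_self] at hxy
    linarith
  have hs : ∀ᶠ s : ℝ in 𝓝[>] 0, 0 < s ∧ s < δ := by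
    filter_upwards [Ioo_mem_nhdsGT hδ] with s hs
    exact hs
  have hcont : Tendsto (fun s : ℝ => dist (mv u s x) (mv u s y)) (𝓝[>] 0) (𝓝 (dist x y)) := by
    have h1 : ContinuousAt (fun s : ℝ => dist (mv u s x) (mv u s y)) 0 :=
      (continuousAt_mv u x).dist (continuousAt_mv u y)
    have h2 := h1.tendsto
    rw [mv_zero, mv_zero] at h2
    exact h2.mono_left nhdsWithin_le_nhds
  by_cases h1 : 0 < (inner ℝ u x : ℝ)
  · rw [abs_of_pos h1] at hzx
    by_cases h2 : 0 < (inner ℝ u y : ℝ)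
    · rw [abs_of_pos h2] at hzy
      filter_upwards [hs] with s hs
      unfold mv
      rw [if_pos h1, if_pos h2]
      refine hxy.trans_lt (lt_dist_boost hu hx hy ?_ ?_ hne)
      · have := den_lt_one (z := -inner ℝ u x) hs.1 (by linarith)
        rw [neg_sq]
        linarith
      · have := den_lt_one (z := -inner ℝ u y) hs.1 (by linarith)
        rw [neg_sq]
        linarith
    · rw [abs_of_nonpos (not_lt.mp h2)] at hzy
      refine hcont.eventually_const_lt ?_
      have h3 : inner ℝ u (x - y) ≤ ‖u‖ * ‖x - y‖ := real_inner_le_norm _ _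
      rw [hu, one_mul, inner_sub_right] at h3
      rw [dist_eq_norm]
      linarith
  · rw [abs_of_nonpos (not_lt.mp h1)] at hzx
    by_cases h2 : 0 < (inner ℝ u y : ℝ)
    · rw [abs_of_pos h2] at hzy
      refine hcont.eventually_const_lt ?_
      have h3 : inner ℝ u (y - x) ≤ ‖u‖ * ‖y - x‖ := real_inner_le_norm _ _
      rw [hu, one_mul, inner_sub_right] at h3
      rw [dist_comm, dist_eq_norm]
      linarith
    · rw [abs_of_nonpos (not_lt.mp h2)] at hzy
      filter_upwards [hs] with s hs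
      unfold mv
      rw [if_neg h1, if_neg h2]
      exact hxy.trans_lt (lt_dist_boost hu hx hy (den_lt_one hs.1 (by linarith))
        (den_lt_one hs.1 (by linarith)) hne)

open Filter Topology in
/-- A configuration without points near a great circle can be expanded. -/
theorem expand {ι : Type*} [Finite ι] {p : ι → E3} (hp : ∀ i, ‖p i‖ = 1) {u : E3}
    (hu : ‖u‖ = 1) {δ : ℝ} (hδ : 0 < δ) (hd : ∀ i j, i ≠ j → δ ≤ dist (p i) (p j))
    (hz : ∀ i, δ < 2 * |inner ℝ u (p i)|) : ∃ δ' : ℝ, δ < δ' ∧ ∃ q : ι → E3,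
      (∀ i, ‖q i‖ = 1) ∧ ∀ i j, i ≠ j → δ' ≤ dist (q i) (q j) := by
  have h1 : ∀ᶠ s : ℝ in 𝓝[>] 0, ∀ i j, i ≠ j → δ < dist (mv u s (p i)) (mv u s (p j)) := by
    rw [eventually_all]
    intro i
    rw [eventually_all]
    intro j
    by_cases hij : i = j
    · exact Eventually.of_forall fun s h => absurd hij h
    · filter_upwards [mv_pair hu (hp i) (hp j) hδ (hd i j hij) (hz i) (hz j)] with s hs _
      exact hs
  obtain ⟨s, hs⟩ := h1.exists
  obtain ⟨δ', hδ', hle⟩ : ∃ δ' : ℝ, δ < δ' ∧ ∀ i j, i ≠ j →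
      δ' ≤ dist (mv u s (p i)) (mv u s (p j)) := by
    rcases isEmpty_or_nonempty {k : ι × ι // k.1 ≠ k.2} with he | hne
    · exact ⟨δ + 1, by linarith, fun i j hij => (he.false ⟨(i, j), hij⟩).elim⟩
    · obtain ⟨k, hk⟩ := Finite.exists_min (fun k : {k : ι × ι // k.1 ≠ k.2} =>
        dist (mv u s (p k.1.1)) (mv u s (p k.1.2)))
      exact ⟨_, hs _ _ k.2, fun i j hij => hk ⟨(i, j), hij⟩⟩
  exact ⟨δ', hδ', fun i => mv u s (p i), fun i => norm_mv hu (hp i) s, hle⟩

/-! ### A great circle with few points nearby -/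

theorem volume_slab_zero {δ : ℝ} (hδ : 0 ≤ δ) :
    volume {v : E3 | v ∈ ball (0 : E3) 1 ∧ 2 * |v 0| ≤ δ} ≤ ENNReal.ofReal (4 * δ) := by
  have h1 : {v : E3 | v ∈ ball (0 : E3) 1 ∧ 2 * |v 0| ≤ δ} ⊆
      (WithLp.ofLp : E3 → (Fin 3 → ℝ)) ⁻¹' (Set.Icc ![-(δ / 2), -1, -1] ![δ / 2, 1, 1]) := by
    rintro v ⟨hv, hv0⟩
    rw [mem_ball_zero_iff] at hv
    have hc : ∀ i, |v i| ≤ 1 := fun i => by
      have := PiLp.norm_apply_le v i
      rw [Real.norm_eq_abs] at this
      linarith
    have h0 := abs_le.mp (show |v 0| ≤ δ / 2 by linarith)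
    have h1 := abs_le.mp (hc 1)
    have h2 := abs_le.mp (hc 2)
    refine ⟨fun i => ?_, fun i => ?_⟩
    · fin_cases i
      · exact h0.1
      · exact h1.1
      · exact h2.1
    · fin_cases i
      · exact h0.2
      · exact h1.2
      · exact h2.2
  refine (measure_mono h1).trans ?_
  rw [(PiLp.volume_preserving_ofLp (Fin 3)).measure_preimage measurableSet_Icc.nullMeasurableSet,
    Real.volume_Icc_pi]
  rw [Fin.prod_univ_three]
  simp only [Matrix.cons_val_zero, Matrix.cons_val_one, Matrix.cons_val]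
  rw [← ENNReal.ofReal_mul (by linarith), ← ENNReal.ofReal_mul (by nlinarith)]
  refine ENNReal.ofReal_le_ofReal ?_
  nlinarith

theorem volume_slab {x : E3} (hx : ‖x‖ = 1) {δ : ℝ} (hδ : 0 ≤ δ) :
    volume {v : E3 | v ∈ ball (0 : E3) 1 ∧ 2 * |inner ℝ v x| ≤ δ} ≤ ENNReal.ofReal (4 * δ) := by
  set e : E3 := EuclideanSpace.single 0 1 with he
  have hen : ‖e‖ = 1 := by simp [he]
  set R := (ℝ ∙ (x - e))ᗮ.reflection with hR
  have hRx : R x = e := Submodule.reflection_sub (hx.trans hen.symm)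
  have h1 : {v : E3 | v ∈ ball (0 : E3) 1 ∧ 2 * |inner ℝ v x| ≤ δ} =
      R ⁻¹' {v : E3 | v ∈ ball (0 : E3) 1 ∧ 2 * |v 0| ≤ δ} := by
    ext v
    have h2 : inner ℝ v x = (R v) 0 := by
      rw [← R.inner_map_map v x, hRx, he, EuclideanSpace.inner_single_right]
      simp
    simp only [mem_preimage, mem_ofPred_eq, mem_ball_zero_iff, LinearIsometryEquiv.norm_map, h2]
  have hm : MeasurableSet {v : E3 | v ∈ ball (0 : E3) 1 ∧ 2 * |v 0| ≤ δ} := by
    have h3 : MeasurableSet {v : E3 | 2 * |v 0| ≤ δ} :=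
      measurableSet_le (by fun_prop) measurable_const
    exact measurableSet_ball.inter h3
  rw [h1, R.measurePreserving.measure_preimage hm.nullMeasurableSet]
  exact volume_slab_zero hδ

open Classical in
/-- There is a great circle with few of the given points nearby. -/
theorem exists_circle {m : ℕ} {p : Fin m → E3} (hp : ∀ i, ‖p i‖ = 1) {δ : ℝ} (hδ : 0 ≤ δ) :
    ∃ u : E3, ‖u‖ = 1 ∧
      (((Finset.univ.filter fun i => 2 * |inner ℝ u (p i)| ≤ δ).card : ℕ) : ℝ) ≤
        3 / Real.pi * δ * m := by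
  set s : Set E3 := ball (0 : E3) 1 \ {0} with hs
  have hsm : MeasurableSet s := measurableSet_ball.diff (measurableSet_singleton 0)
  have hsv : volume s = ENNReal.ofReal (Real.pi * 4 / 3) := by
    rw [hs, measure_sdiff_null (measure_singleton 0), EuclideanSpace.volume_ball_fin_three]
    simp
  have hpi := Real.pi_pos
  have hs0 : volume s ≠ 0 := by
    rw [hsv, Ne, ENNReal.ofReal_eq_zero, not_le]
    positivity
  have hst : volume s ≠ ⊤ := by rw [hsv]; exact ENNReal.ofReal_ne_top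
  set S : Fin m → Set E3 := fun i => {v : E3 | 2 * |inner ℝ v (p i)| ≤ δ * ‖v‖} with hS
  have hSm : ∀ i, MeasurableSet (S i) := by
    intro i
    refine measurableSet_le ?_ ?_
    · fun_prop
    · fun_prop
  set f : E3 → ENNReal := fun v => ∑ i, (S i).indicator (fun _ => (1 : ENNReal)) v with hf
  have hfm : Measurable f :=
    Finset.measurable_sum _ fun i _ => (measurable_const.indicator (hSm i))
  obtain ⟨v, hv, hle⟩ := exists_le_setLAverage hs0 hst hfm.aemeasurable
  have hint : ∫⁻ v in s, f v ≤ m * ENNReal.ofReal (4 * δ) := by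
    rw [hf, lintegral_finsetSum _ fun i _ => (measurable_const.indicator (hSm i))]
    have h1 : ∀ i, ∫⁻ v in s, (S i).indicator (fun _ => (1 : ENNReal)) v ≤
        ENNReal.ofReal (4 * δ) := by
      intro i
      rw [lintegral_indicator (hSm i), lintegral_const, one_mul, Measure.restrict_restrict (hSm i),
        Measure.restrict_apply_univ]
      refine le_trans (measure_mono ?_) (volume_slab (hp i) hδ)
      rintro w ⟨hw, hws⟩
      refine ⟨hws.1, ?_⟩
      have h2 := mem_ball_zero_iff.mp hws.1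
      have h3 : 2 * |inner ℝ w (p i)| ≤ δ * ‖w‖ := hw
      nlinarith
    refine (Finset.sum_le_sum fun i _ => h1 i).trans (le_of_eq ?_)
    simp
  have hav : (⨍⁻ v in s, f v ∂volume) ≤ ENNReal.ofReal (3 / Real.pi * δ * m) := by
    rw [setLAverage_eq, hsv]
    refine ENNReal.div_le_of_le_mul (hint.trans (le_of_eq ?_))
    rw [← ENNReal.ofReal_mul (by positivity), ← ENNReal.ofReal_natCast,
      ← ENNReal.ofReal_mul (by positivity)]
    congr 1
    field_simp
  have hfv := hle.trans hav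
  have hv0 : v ≠ 0 := fun h => hv.2 (by simpa using h)
  have hvn : 0 < ‖v‖ := norm_pos_iff.mpr hv0
  refine ⟨‖v‖⁻¹ • v, ?_, ?_⟩
  · rw [norm_smul, norm_inv, norm_norm, inv_mul_cancel₀ hvn.ne']
  · have h1 : (Finset.univ.filter fun i => 2 * |inner ℝ (‖v‖⁻¹ • v) (p i)| ≤ δ) =
        Finset.univ.filter fun i => v ∈ S i := by
      ext i
      simp only [Finset.mem_filter, Finset.mem_univ, true_and, hS, mem_ofPred_eq]
      rw [real_inner_smul_left, abs_mul, abs_inv, abs_norm, ← mul_assoc, mul_comm 2 ‖v‖⁻¹,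
        mul_assoc, inv_mul_le_iff₀ hvn, mul_comm ‖v‖ δ]
    have h2 : f v = ((Finset.univ.filter fun i => v ∈ S i).card : ℕ) := by
      simp only [hf, indicator_apply]
      rw [Finset.sum_ite]
      simp
    rw [h1]
    rw [h2, ← ENNReal.ofReal_natCast] at hfv
    exact (ENNReal.ofReal_le_ofReal_iff (by positivity)).mp hfv

/-! ### The packing bound -/

theorem packing {m : ℕ} {p : Fin m → E3} (hp : ∀ i, ‖p i‖ = 1) {δ : ℝ} (hδ : 0 < δ) (hδ2 : δ ≤ 2)
    (hd : ∀ i j, i ≠ j → δ ≤ dist (p i) (p j)) : ((m : ℝ) - 2) * δ ^ 2 ≤ 24 := by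
  set h : ℝ := δ / 2 with hh
  have hh0 : 0 < h := by positivity
  have hh1 : h ≤ 1 := by rw [hh]; linarith
  set V : ENNReal := ENNReal.ofReal (Real.pi * 4 / 3) with hV
  have hpi := Real.pi_pos
  have hV0 : V ≠ 0 := by
    rw [hV, Ne, ENNReal.ofReal_eq_zero, not_le]
    positivity
  have hVt : V ≠ ⊤ := ENNReal.ofReal_ne_top
  have hvol : ∀ (x : E3) (r : ℝ), 0 ≤ r → volume (ball x r) = ENNReal.ofReal (r ^ 3) * V := by
    intro x r hr
    rw [EuclideanSpace.volume_ball_fin_three, ← ENNReal.ofReal_pow hr]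
  have hU : volume (⋃ i, ball (p i) h) = ENNReal.ofReal (m * h ^ 3) * V := by
    rw [measure_iUnion _ fun i => measurableSet_ball]
    · simp only [hvol _ _ hh0.le]
      rw [tsum_fintype, Finset.sum_const, Finset.card_univ, Fintype.card_fin, nsmul_eq_mul,
        ← mul_assoc, ← ENNReal.ofReal_natCast, ← ENNReal.ofReal_mul (by positivity)]
    · intro i j hij
      refine ball_disjoint_ball ?_
      have := hd i j hij
      rw [hh]
      linarith
  have hdis : Disjoint (⋃ i, ball (p i) h) (ball (0 : E3) (1 - h)) := by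
    rw [disjoint_iUnion_left]
    intro i
    refine ball_disjoint_ball ?_
    rw [dist_zero_right, hp i]
    linarith
  have hsub : (⋃ i, ball (p i) h) ∪ ball (0 : E3) (1 - h) ⊆ ball (0 : E3) (1 + h) := by
    refine union_subset (iUnion_subset fun i => ball_subset_ball' ?_) (ball_subset_ball ?_)
    · rw [dist_zero_right, hp i]
      linarith
    · linarith
  have key := measure_mono (μ := (volume : Measure E3)) hsub
  rw [measure_union hdis measurableSet_ball, hU, hvol _ _ (by linarith), hvol _ _ (by linarith),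
    ← add_mul, ← ENNReal.ofReal_add (by positivity) (by positivity)] at key
  have key2 := (ENNReal.mul_le_mul_iff_left hV0 hVt).mp key
  rw [ENNReal.ofReal_le_ofReal_iff (by positivity)] at key2
  have h3 : h * (((m : ℝ) - 2) * h ^ 2) ≤ h * 6 := by nlinarith
  have h4 := le_of_mul_le_mul_left h3 hh0
  have h5 : δ = 2 * h := by rw [hh]; ring
  rw [h5]
  nlinarith

/-! ### The optimal configurations -/

/-- The separations which `n` points of the sphere can have. -/
def sep (n : ℕ) : Set ℝ :=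
  {δ : ℝ | ∃ p : Fin n → E3, (∀ i, ‖p i‖ = 1) ∧ ∀ i j, i ≠ j → δ ≤ dist (p i) (p j)}

theorem le_two {n : ℕ} (hn : 2 ≤ n) {δ : ℝ} (h : δ ∈ sep n) : δ ≤ 2 := by
  obtain ⟨p, hp, hd⟩ := h
  have h1 := hd ⟨0, by omega⟩ ⟨1, by omega⟩ (by simp [Fin.ext_iff])
  have h2 : dist (p ⟨0, by omega⟩) (p ⟨1, by omega⟩) ≤ 1 + 1 := by
    rw [dist_eq_norm]
    refine (norm_sub_le _ _).trans ?_
    rw [hp, hp]
  linarith

theorem zero_mem (n : ℕ) : (0 : ℝ) ∈ sep n :=
  ⟨fun _ => EuclideanSpace.single 0 1, fun _ => by simp, fun _ _ _ => dist_nonneg⟩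

theorem isGreatest {n : ℕ} (hn : 2 ≤ n) : IsGreatest (sep n) (d n) := by
  set T : Set (ℝ × (Fin n → E3)) :=
    (Icc (0 : ℝ) 2 ×ˢ (Set.univ.pi fun _ => sphere (0 : E3) 1)) ∩
      {x | ∀ i j, i ≠ j → x.1 ≤ dist (x.2 i) (x.2 j)} with hT
  have hTc : IsCompact T := by
    refine (isCompact_Icc.prod (isCompact_univ_pi fun _ => isCompact_sphere 0 1)).inter_right ?_
    simp only [ofPred_forall]
    refine isClosed_iInter fun i => isClosed_iInter fun j => isClosed_iInter fun _ => ?_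
    exact isClosed_le (by fun_prop) (by fun_prop)
  have hmem : ∀ δ ∈ sep n, 0 ≤ δ → δ ∈ Prod.fst '' T := by
    rintro δ ⟨p, hp, hd⟩ h0
    refine ⟨(δ, p), ⟨⟨⟨h0, le_two hn ⟨p, hp, hd⟩⟩, fun i _ => ?_⟩, hd⟩, rfl⟩
    rw [mem_sphere_zero_iff_norm]
    exact hp i
  obtain ⟨x, hx, hxg⟩ := (hTc.image continuous_fst).exists_isGreatest
    ⟨0, hmem 0 (zero_mem n) le_rfl⟩
  have hgr : IsGreatest (sep n) x := by
    constructor
    · obtain ⟨⟨δ, p⟩, ⟨⟨_, hp⟩, hd⟩, rfl⟩ := hx
      exact ⟨p, fun i => mem_sphere_zero_iff_norm.mp (hp i trivial), hd⟩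
    · intro δ hδ
      rcases le_total 0 δ with h | h
      · exact hxg (hmem δ hδ h)
      · exact h.trans (hxg (hmem 0 (zero_mem n) le_rfl))
  have : d n = x := hgr.csSup_eq
  rw [this]
  exact hgr

theorem d_pos {n : ℕ} (hn : 2 ≤ n) : 0 < d n := by
  set v : Fin n → E3 := fun i => WithLp.toLp 2 ![1, ((i : ℕ) : ℝ), 0] with hv
  have hv0 : ∀ i, v i ≠ 0 := fun i h => by
    have := congrArg (fun w : E3 => w 0) h
    simp [hv] at this
  set p : Fin n → E3 := fun i => ‖v i‖⁻¹ • v i with hp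
  have hinj : ∀ i j, i ≠ j → 0 < dist (p i) (p j) := by
    intro i j hij
    rw [dist_pos]
    intro h
    have h0 : ‖v i‖⁻¹ = ‖v j‖⁻¹ := by
      have := congrArg (fun w : E3 => w 0) h
      simpa [hp, hv] using this
    have h1 : ‖v i‖⁻¹ * ((i : ℕ) : ℝ) = ‖v j‖⁻¹ * ((j : ℕ) : ℝ) := by
      have := congrArg (fun w : E3 => w 1) h
      simpa [hp, hv] using this
    rw [h0] at h1
    have h2 := mul_left_cancel₀ (inv_ne_zero (norm_ne_zero_iff.mpr (hv0 j))) h1
    exact hij (Fin.ext (by exact_mod_cast h2))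
  have : Nonempty {k : Fin n × Fin n // k.1 ≠ k.2} :=
    ⟨⟨(⟨0, by omega⟩, ⟨1, by omega⟩), by simp [Fin.ext_iff]⟩⟩
  obtain ⟨k, hk⟩ := Finite.exists_min (fun k : {k : Fin n × Fin n // k.1 ≠ k.2} =>
    dist (p k.1.1) (p k.1.2))
  have h1 : dist (p k.1.1) (p k.1.2) ∈ sep n :=
    ⟨p, fun i => by
      rw [hp]
      simp only
      rw [norm_smul, norm_inv, norm_norm, inv_mul_cancel₀ (norm_ne_zero_iff.mpr (hv0 i))],
      fun i j hij => hk ⟨(i, j), hij⟩⟩
  exact (hinj _ _ k.2).trans_le ((isGreatest hn).2 h1)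

theorem plateau {n m : ℕ} (hn : 2 ≤ n) (hnm : n ≤ m) (hd : d n = d m) :
    ((m : ℝ) - n) ^ 2 ≤ 25 * m := by
  classical
  have hm2 : 2 ≤ m := hn.trans hnm
  have hD0 := d_pos hm2
  obtain ⟨⟨p, hp, hpd⟩, -⟩ := isGreatest hm2
  have hD2 : d m ≤ 2 := le_two hm2 ⟨p, hp, hpd⟩
  have hpack := packing hp hD0 hD2 hpd
  obtain ⟨u, hu, hB⟩ := exists_circle hp hD0.le
  set B : Finset (Fin m) := Finset.univ.filter fun i => 2 * |inner ℝ u (p i)| ≤ d m with hBdef
  have hcard : m < n + B.card := by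
    by_contra hcon
    push Not at hcon
    have hc : Fintype.card (Fin n) ≤ Fintype.card {i // i ∉ B} := by
      rw [Fintype.card_fin, Fintype.card_subtype_compl, Fintype.card_fin, Fintype.card_coe]
      omega
    obtain ⟨e⟩ := Function.Embedding.nonempty_of_card_le hc
    obtain ⟨δ', hδ', q, hq, hqd⟩ := expand (p := fun i : Fin n => p (e i).1)
      (fun i => hp _) hu hD0 (fun i j hij => hpd _ _ fun h => hij (e.injective (Subtype.ext h)))
      (fun i => by
        by_contra hlt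
        exact (e i).2 (Finset.mem_filter.mpr ⟨Finset.mem_univ _, not_lt.mp hlt⟩))
    have h1 := (isGreatest hn).2 ⟨q, hq, hqd⟩
    rw [hd] at h1
    linarith
  have hnm' : (n : ℝ) ≤ m := by exact_mod_cast hnm
  have hn' : (2 : ℝ) ≤ n := by exact_mod_cast hn
  rcases le_or_gt m 28 with hm | hm
  · have hm' : (m : ℝ) ≤ 28 := by exact_mod_cast hm
    nlinarith
  · have hm' : (28 : ℝ) < m := by exact_mod_cast hm
    have h1 : (m : ℝ) - n ≤ 3 / Real.pi * d m * m := by
      have : (m : ℝ) < n + (B.card : ℝ) := by exact_mod_cast hcard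
      linarith
    have hpi : (3 : ℝ) / Real.pi ≤ 0.9555 := by
      rw [div_le_iff₀ Real.pi_pos]
      have := Real.pi_gt_d2
      linarith
    have h2 : (m : ℝ) - n ≤ 0.9555 * d m * m := by
      refine h1.trans ?_
      have : 0 ≤ d m * m := by positivity
      nlinarith
    have h3 : ((m : ℝ) - n) ^ 2 ≤ (0.9555 * d m * m) ^ 2 :=
      pow_le_pow_left₀ (by linarith) h2 2
    have h4 : ((m : ℝ) - 2) * ((m : ℝ) - n) ^ 2 ≤ ((m : ℝ) - 2) * (25 * m) := by
      calc ((m : ℝ) - 2) * ((m : ℝ) - n) ^ 2 ≤ ((m : ℝ) - 2) * (0.9555 * d m * m) ^ 2 :=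
            mul_le_mul_of_nonneg_left h3 (by linarith)
        _ = 0.9555 ^ 2 * m ^ 2 * (((m : ℝ) - 2) * d m ^ 2) := by ring
        _ ≤ 0.9555 ^ 2 * m ^ 2 * 24 := mul_le_mul_of_nonneg_left hpack (by positivity)
        _ ≤ ((m : ℝ) - 2) * (25 * m) := by nlinarith
    exact le_of_mul_le_mul_left h4 (by linarith)

theorem d_anti {n m : ℕ} (hn : 2 ≤ n) (hnm : n ≤ m) : d m ≤ d n := by
  obtain ⟨⟨p, hp, hpd⟩, -⟩ := isGreatest (hn.trans hnm)
  exact (isGreatest hn).2 ⟨fun i => p (Fin.castLE hnm i), fun i => hp _,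
    fun i j hij => hpd _ _ fun h => hij (Fin.castLE_injective hnm h)⟩

theorem exists_drop {a L : ℕ} (ha : 2 ≤ a) (hL : 25 * (a + L) < L ^ 2) :
    ∃ n ∈ Finset.Ioc a (a + L), d n < d (n - 1) := by
  by_contra hcon
  push Not at hcon
  have h1 : ∀ k, k ≤ L → d a ≤ d (a + k) := by
    intro k
    induction k with
    | zero => intro _; exact le_rfl
    | succ k ih =>
      intro hk
      exact (ih (by omega)).trans (hcon (a + (k + 1)) (Finset.mem_Ioc.mpr ⟨by omega, by omega⟩))
  have h2 := plateau ha (Nat.le_add_right a L) (le_antisymm (h1 L le_rfl)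
    (d_anti ha (Nat.le_add_right a L)))
  push_cast at h2
  have h3 : (25 : ℝ) * (a + L) < L ^ 2 := by exact_mod_cast hL
  have h4 : ((a : ℝ) + L - a) ^ 2 = L ^ 2 := by ring
  linarith

/-- **Plateaus of the optimal separation are short.** If `d(n) = d(m)` with `2 ≤ n ≤ m` then
`(m - n) ^ 2 ≤ 25 m`; the number of `n` with `2 < n ≤ N` and `d(n) < d(n - 1)` is at least
`⌊(N - 2) / L⌋` for every `L > 5 √N`. -/
theorem result :
    (∀ n m : ℕ, 2 ≤ n → n ≤ m → d n = d m → ((m : ℝ) - n) ^ 2 ≤ 25 * m) ∧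
    ∀ N L : ℕ, 25 * N < L ^ 2 →
      (N - 2) / L ≤ {n ∈ Finset.Ioc 2 N | d n < d (n - 1)}.card := by
  refine ⟨fun n m hn hnm hd => plateau hn hnm hd, fun N L hNL => ?_⟩
  have hL : 0 < L := Nat.pos_of_ne_zero fun h => by simp [h] at hNL
  have hle : ∀ k ∈ Finset.range ((N - 2) / L), 2 + (k + 1) * L ≤ N := by
    intro k hk
    have h1 : (k + 1) * L ≤ N - 2 :=
      (Nat.le_div_iff_mul_le hL).mp (Finset.mem_range.mp hk)
    have h2 : 0 < (k + 1) * L := by positivity
    omega
  have hex : ∀ k : ℕ, ∃ n : ℕ, k ∈ Finset.range ((N - 2) / L) →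
      n ∈ Finset.Ioc (2 + k * L) (2 + k * L + L) ∧ d n < d (n - 1) := by
    intro k
    by_cases hk : k ∈ Finset.range ((N - 2) / L)
    · have h1 := hle k hk
      have h2 : 2 + k * L + L = 2 + (k + 1) * L := by ring
      obtain ⟨n, hn, hd⟩ := exists_drop (a := 2 + k * L) (L := L) (by omega) (by
        rw [h2]
        omega)
      exact ⟨n, fun _ => ⟨hn, hd⟩⟩
    · exact ⟨0, fun h => absurd h hk⟩
  choose g hg using hex
  rw [← Finset.card_range ((N - 2) / L)]
  refine Finset.card_le_card_of_injOn g (fun k hk => ?_) (fun k hk l hl hkl => ?_)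
  · obtain ⟨h1, h2⟩ := hg k hk
    have h3 := hle k hk
    have h4 : 2 + k * L + L = 2 + (k + 1) * L := by ring
    rw [Finset.mem_Ioc] at h1
    exact Finset.mem_coe.mpr (Finset.mem_filter.mpr ⟨Finset.mem_Ioc.mpr ⟨by omega, by omega⟩, h2⟩)
  · have h1 := Finset.mem_Ioc.mp (hg k hk).1
    have h2 := Finset.mem_Ioc.mp (hg l hl).1
    rw [hkl] at h1
    rcases lt_trichotomy k l with h | h | h
    · have h3 : (k + 1) * L ≤ l * L := Nat.mul_le_mul_right L h
      have h4 : (k + 1) * L = k * L + L := by ring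
      omega
    · exact h
    · have h3 : (l + 1) * L ≤ k * L := Nat.mul_le_mul_right L h
      have h4 : (l + 1) * L = l * L + L := by ring
      omega

end Pool.Agent.Lib.MP_8bd676_co.ShortPlateaus
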